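import Mathlib

set_option autoImplicit false

namespace Pool.Agent.Helper54.W4

open Finset

/-- For two vectors with witnesses of disjointness, the rows orthogonal to both form at most
one ninth of all rows. -/
theorem card_rows {ι : Type} [Fintype ι] [DecidableEq ι] (x y : ι → ZMod 3) (i j : ι)
    (hi : x i ≠ 0) (hyi : y i = 0) (hj : y j ≠ 0) (hxj : x j = 0) :
    9 * (univ.filter (fun h : ι → ZMod 3 =>
      (∑ t, h t * x t = 0) ∧ (∑ t, h t * y t = 0))).card ≤ 3 ^ Fintype.card ι := by
  classical
  set S := univ.filter (fun h : ι → ZMod 3 =>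
      (∑ t, h t * x t = 0) ∧ (∑ t, h t * y t = 0)) with hS
  have hsum : ∀ (h : ι → ZMod 3) (s t : ZMod 3) (w : ι → ZMod 3),
      ∑ u, (h u + (Pi.single i s : ι → ZMod 3) u + (Pi.single j t : ι → ZMod 3) u) * w u
        = (∑ u, h u * w u) + s * w i + t * w j := by
    intro h s t w
    simp only [add_mul, Finset.sum_add_distrib]
    congr 1
    · congr 1
      rw [Finset.sum_eq_single i]
      · simp
      · intro b _ hb
        simp [Pi.single_eq_of_ne hb]
      · simp
    · rw [Finset.sum_eq_single j]
      · simp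
      · intro b _ hb
        simp [Pi.single_eq_of_ne hb]
      · simp
  have hinj : Set.InjOn (fun q : (ZMod 3 × ZMod 3) × (ι → ZMod 3) =>
      (fun u => q.2 u + (Pi.single i q.1.1 : ι → ZMod 3) u
        + (Pi.single j q.1.2 : ι → ZMod 3) u))
      ((univ : Finset (ZMod 3 × ZMod 3)) ×ˢ S : Finset _) := by
    rintro ⟨⟨s, t⟩, h⟩ hq ⟨⟨s', t'⟩, h'⟩ hq' heq
    simp only [Finset.coe_product, Set.mem_prod, Finset.mem_coe, hS, Finset.mem_filter,
      Finset.mem_univ, true_and] at hq hq'
    have e1 := hsum h s t x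
    have e1' := hsum h' s' t' x
    have e2 := hsum h s t y
    have e2' := hsum h' s' t' y
    simp only at heq
    have hc : ∀ u, h u + (Pi.single i s : ι → ZMod 3) u + (Pi.single j t : ι → ZMod 3) u
        = h' u + (Pi.single i s' : ι → ZMod 3) u + (Pi.single j t' : ι → ZMod 3) u :=
      fun u => congrFun heq u
    have hs : s = s' := by
      have : s * x i = s' * x i := by
        have h1 : ∑ u, (h u + (Pi.single i s : ι → ZMod 3) u
            + (Pi.single j t : ι → ZMod 3) u) * x u
            = ∑ u, (h' u + (Pi.single i s' : ι → ZMod 3) u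
            + (Pi.single j t' : ι → ZMod 3) u) * x u :=
          Finset.sum_congr rfl (fun u _ => by rw [hc u])
        rw [e1, e1', hq.1, hq'.1, hxj] at h1
        simpa using h1
      exact mul_right_cancel₀ hi this
    have ht : t = t' := by
      have : t * y j = t' * y j := by
        have h1 : ∑ u, (h u + (Pi.single i s : ι → ZMod 3) u
            + (Pi.single j t : ι → ZMod 3) u) * y u
            = ∑ u, (h' u + (Pi.single i s' : ι → ZMod 3) u
            + (Pi.single j t' : ι → ZMod 3) u) * y u :=
          Finset.sum_congr rfl (fun u _ => by rw [hc u])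
        rw [e2, e2', hq.2, hq'.2, hyi] at h1
        simpa using h1
      exact mul_right_cancel₀ hj this
    subst hs; subst ht
    have hh : h = h' := by
      funext u
      have := hc u
      exact add_right_cancel (add_right_cancel this)
    rw [hh]
  have hle := Finset.card_le_card_of_injOn
    (s := (univ : Finset (ZMod 3 × ZMod 3)) ×ˢ S) (t := (univ : Finset (ι → ZMod 3)))
    (fun q : (ZMod 3 × ZMod 3) × (ι → ZMod 3) =>
      (fun u => q.2 u + (Pi.single i q.1.1 : ι → ZMod 3) u
        + (Pi.single j q.1.2 : ι → ZMod 3) u)) (fun _ _ => Finset.mem_univ _) hinj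
  rw [Finset.card_product, Finset.card_univ, Finset.card_univ, Fintype.card_prod, ZMod.card,
    Fintype.card_fun, ZMod.card] at hle
  simpa using hle

theorem exists_hash {ι : Type} [Fintype ι] [DecidableEq ι] (r : ℕ)
    (hr : 5 ^ Fintype.card ι < 9 ^ r) :
    ∃ H : Fin r → ι → ZMod 3, ∀ x y : ι → ZMod 3, x ≠ 0 → y ≠ 0 →
      (∀ i, x i = 0 ∨ y i = 0) → (∀ j, ∑ t, H j t * x t = 0) →
      (∀ j, ∑ t, H j t * y t = 0) → False := by
  classical
  by_contra hcon
  push Not at hcon
  -- the set of disjoint pairs, as functions into the five allowed values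
  set A : Finset (ZMod 3 × ZMod 3) := univ.filter (fun q => q.1 = 0 ∨ q.2 = 0) with hA
  have hAcard : A.card = 5 := by rw [hA]; decide
  set P : Finset (ι → ZMod 3 × ZMod 3) :=
    (Fintype.piFinset (fun _ : ι => A)).filter
      (fun q => (fun i => (q i).1) ≠ 0 ∧ (fun i => (q i).2) ≠ 0) with hP
  have hPcard : P.card ≤ 5 ^ Fintype.card ι := by
    calc P.card ≤ (Fintype.piFinset (fun _ : ι => A)).card := Finset.card_filter_le _ _
      _ = 5 ^ Fintype.card ι := by
        rw [Fintype.card_piFinset]; simp [hAcard]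
  let rows : (ι → ZMod 3 × ZMod 3) → Finset (ι → ZMod 3) := fun q =>
    univ.filter (fun h : ι → ZMod 3 =>
      (∑ t, h t * (q t).1 = 0) ∧ (∑ t, h t * (q t).2 = 0))
  have hcov : (univ : Finset (Fin r → ι → ZMod 3)) ⊆
      P.biUnion (fun q => Fintype.piFinset (fun _ : Fin r => rows q)) := by
    intro H _
    obtain ⟨x, y, hx, hy, hd, hHx, hHy, -⟩ := hcon H
    rw [Finset.mem_biUnion]
    refine ⟨fun i => (x i, y i), ?_, ?_⟩
    · rw [hP, Finset.mem_filter]
      refine ⟨?_, ?_⟩
      · rw [Fintype.mem_piFinset]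
        intro i
        rw [hA, Finset.mem_filter]
        exact ⟨Finset.mem_univ _, hd i⟩
      · exact ⟨hx, hy⟩
    · rw [Fintype.mem_piFinset]
      intro j
      simp only [rows, Finset.mem_filter, Finset.mem_univ, true_and]
      exact ⟨hHx j, hHy j⟩
  have hcard1 := Finset.card_le_card hcov
  have hcard2 := hcard1.trans (Finset.card_biUnion_le)
  have hrow : ∀ q ∈ P, 9 * (rows q).card ≤ 3 ^ Fintype.card ι := by
    intro q hq
    rw [hP, Finset.mem_filter, Fintype.mem_piFinset] at hq
    obtain ⟨hq1, hq2, hq3⟩ := hq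
    obtain ⟨i, hi⟩ := Function.ne_iff.mp hq2
    obtain ⟨j, hj⟩ := Function.ne_iff.mp hq3
    have hyi : (q i).2 = 0 := by
      have := hq1 i
      rw [hA, Finset.mem_filter] at this
      rcases this.2 with h | h
      · exact absurd h hi
      · exact h
    have hxj : (q j).1 = 0 := by
      have := hq1 j
      rw [hA, Finset.mem_filter] at this
      rcases this.2 with h | h
      · exact h
      · exact absurd h hj
    exact card_rows (fun t => (q t).1) (fun t => (q t).2) i j hi hyi hj hxj
  have hterm : ∀ q ∈ P, 9 ^ r * (Fintype.piFinset (fun _ : Fin r => rows q)).card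
      ≤ (3 ^ Fintype.card ι) ^ r := by
    intro q hq
    rw [Fintype.card_piFinset]
    simp only [Finset.prod_const, Finset.card_univ, Fintype.card_fin]
    rw [← mul_pow]
    exact Nat.pow_le_pow_left (hrow q hq) r
  have huniv : (univ : Finset (Fin r → ι → ZMod 3)).card = (3 ^ Fintype.card ι) ^ r := by
    rw [Finset.card_univ, Fintype.card_fun, Fintype.card_fun, ZMod.card, Fintype.card_fin]
  have hfin : 9 ^ r * (3 ^ Fintype.card ι) ^ r ≤ 5 ^ Fintype.card ι * (3 ^ Fintype.card ι) ^ r := by
    calc 9 ^ r * (3 ^ Fintype.card ι) ^ r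
        ≤ 9 ^ r * ∑ q ∈ P, (Fintype.piFinset (fun _ : Fin r => rows q)).card := by
          rw [← huniv]; exact Nat.mul_le_mul_left _ hcard2
      _ = ∑ q ∈ P, 9 ^ r * (Fintype.piFinset (fun _ : Fin r => rows q)).card := by
          rw [Finset.mul_sum]
      _ ≤ ∑ q ∈ P, (3 ^ Fintype.card ι) ^ r := Finset.sum_le_sum hterm
      _ = P.card * (3 ^ Fintype.card ι) ^ r := by rw [Finset.sum_const, smul_eq_mul]
      _ ≤ 5 ^ Fintype.card ι * (3 ^ Fintype.card ι) ^ r := Nat.mul_le_mul_right _ hPcard
  have hpos : 0 < (3 ^ Fintype.card ι) ^ r := by positivity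
  have := Nat.le_of_mul_le_mul_right hfin hpos
  omega

end Pool.Agent.Helper54.W4
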