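import Mathlib

set_option autoImplicit false

namespace Pool.Agent.Helper54.W4

open Finset

/-- letters of one coordinate -/
abbrev Ltr := Fin 75

/-- blocks: points of the box `[0,74]^2` -/
abbrev Blk := Ltr × Ltr

/-- exponent of the Gaussian weight, depends only on the coarse letter `p / 3` -/
def ex (p : ℕ) : ℕ := (p / 3 - 12) ^ 2 + (12 - p / 3) ^ 2

theorem ex_le (p : Ltr) : ex p.val ≤ 144 := by
  revert p; decide

/-- the Delaunay triangle -/
def InE (s t : ℤ) : Prop := (s = 0 ∧ t = 0) ∨ (s = 1 ∧ t = 0) ∨ (s = 0 ∧ t = 1)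

instance (s t : ℤ) : Decidable (InE s t) := by unfold InE; infer_instance

def qf (s t : ℤ) : ℤ := s ^ 2 + t ^ 2 + s * t - s - t

theorem qf_nonneg (s t : ℤ) : 0 ≤ qf s t := by
  unfold qf
  rcases le_or_gt s 0 with hs | hs
  · rcases le_or_gt t 0 with ht | ht
    · nlinarith [mul_nonneg_of_nonpos_of_nonpos hs ht]
    · rcases le_or_gt (s + t) 0 with h | h
      · nlinarith [mul_nonneg (neg_nonneg.mpr hs) ht.le]
      · have h1 : 1 ≤ t := ht
        nlinarith [mul_nonneg (neg_nonneg.mpr hs) (by linarith : (0:ℤ) ≤ t - 1)]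
  · rcases le_or_gt t 0 with ht | ht
    · have h1 : 1 ≤ s := hs
      nlinarith [mul_nonneg (neg_nonneg.mpr ht) (by linarith : (0:ℤ) ≤ s - 1),
        mul_nonneg (by linarith : (0:ℤ) ≤ s) (by linarith : (0:ℤ) ≤ s - 1)]
    · have h1 : 1 ≤ s := hs
      have h2 : 1 ≤ t := ht
      nlinarith [mul_nonneg (by linarith : (0:ℤ) ≤ s - 1) (by linarith : (0:ℤ) ≤ t - 1)]

theorem inE_of_qf (s t : ℤ) (h : qf s t = 0) : InE s t := by
  unfold qf at h
  -- `s^2 + t^2 + (1 - s - t)^2 = 1`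
  have h2 : s ^ 2 + t ^ 2 + (1 - s - t) ^ 2 = 1 := by linarith [h, (by ring :
    s ^ 2 + t ^ 2 + (1 - s - t) ^ 2 = 2 * (s ^ 2 + t ^ 2 + s * t - s - t) + 1)]
  have hs : s ^ 2 ≤ 1 := by nlinarith [sq_nonneg t, sq_nonneg (1 - s - t)]
  have ht : t ^ 2 ≤ 1 := by nlinarith [sq_nonneg s, sq_nonneg (1 - s - t)]
  have hs1 : -1 ≤ s ∧ s ≤ 1 := abs_le.mp (by nlinarith [abs_nonneg s, sq_abs s])
  have ht1 : -1 ≤ t ∧ t ≤ 1 := abs_le.mp (by nlinarith [abs_nonneg t, sq_abs t])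
  obtain ⟨a1, a2⟩ := hs1
  obtain ⟨b1, b2⟩ := ht1
  unfold InE
  interval_cases s <;> interval_cases t <;> simp_all

/-- the local relation: `x + y + z - (111, 111)` lies in the Delaunay triangle -/
def Rel (x y z : Blk) : Prop :=
  InE ((x.1.val : ℤ) + y.1.val + z.1.val - 111) ((x.2.val : ℤ) + y.2.val + z.2.val - 111)

instance (x y z : Blk) : Decidable (Rel x y z) := by unfold Rel; infer_instance

theorem Rel.rot {x y z : Blk} (h : Rel x y z) : Rel y z x := by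
  unfold Rel at *
  rw [show (y.1.val : ℤ) + z.1.val + x.1.val = x.1.val + y.1.val + z.1.val by ring,
    show (y.2.val : ℤ) + z.2.val + x.2.val = x.2.val + y.2.val + z.2.val by ring]
  exact h

theorem Rel.swap {x y z : Blk} (h : Rel x y z) : Rel y x z := by
  unfold Rel at *
  rw [show (y.1.val : ℤ) + x.1.val + z.1.val = x.1.val + y.1.val + z.1.val by ring,
    show (y.2.val : ℤ) + x.2.val + z.2.val = x.2.val + y.2.val + z.2.val by ring]
  exact h

/-- label of a block modulo 3 -/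
def lam (x : Blk) : ZMod 3 := (x.1.val : ZMod 3) + 2 * (x.2.val : ZMod 3)

theorem blk_ext {x x' : Blk} (h1 : (x.1.val : ℤ) = x'.1.val) (h2 : (x.2.val : ℤ) = x'.2.val) :
    x = x' := by
  apply Prod.ext
  · apply Fin.ext; exact_mod_cast h1
  · apply Fin.ext; exact_mod_cast h2

/-- Sidon property of the triangle -/
theorem sidon {z p1 p2 q1 q2 : Blk} (h11 : Rel z p1 q1) (h12 : Rel z p1 q2)
    (h21 : Rel z p2 q1) (h22 : Rel z p2 q2) : p1 = p2 ∨ q1 = q2 := by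
  unfold Rel InE at *
  by_cases hp : (p1.1.val : ℤ) = p2.1.val ∧ (p1.2.val : ℤ) = p2.2.val
  · exact Or.inl (blk_ext hp.1 hp.2)
  · right
    apply blk_ext <;> omega

/-- the label separates blocks completing the same pair -/
theorem lam_ne {x x' y z : Blk} (h : Rel x y z) (h' : Rel x' y z) (hne : x ≠ x') :
    lam x ≠ lam x' := by
  intro hl
  apply hne
  have hl2 : (((x.1.val : ℤ) + 2 * x.2.val : ℤ) : ZMod 3)
      = (((x'.1.val : ℤ) + 2 * x'.2.val : ℤ) : ZMod 3) := by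
    unfold lam at hl
    push_cast
    exact hl
  rw [ZMod.intCast_eq_intCast_iff_dvd_sub] at hl2
  unfold Rel InE at *
  obtain ⟨d, hd⟩ := hl2
  push_cast at hd
  apply blk_ext <;> omega

/-- vertex part of the pair function -/
def hv (x : Blk) : ℤ :=
  (x.1.val : ℤ) ^ 2 + (x.2.val : ℤ) ^ 2 + (x.1.val : ℤ) * x.2.val
    - 334 * ((x.1.val : ℤ) + x.2.val)

/-- the symmetric pair function -/
def pf (x y : Blk) : ℤ :=
  4 * ((x.1.val : ℤ) * y.1.val) + 4 * ((x.2.val : ℤ) * y.2.val)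
    + 2 * ((x.1.val : ℤ) * y.2.val + (x.2.val : ℤ) * y.1.val) + hv x + hv y

theorem pf_comm (x y : Blk) : pf x y = pf y x := by unfold pf; ring

theorem pf_sum (x y z : Blk) :
    pf x y + pf y z + pf x z
      = 2 * qf ((x.1.val : ℤ) + y.1.val + z.1.val - 111)
          ((x.2.val : ℤ) + y.2.val + z.2.val - 111) - 74370 := by
  unfold pf hv qf
  ring

theorem pf_bound (x y : Blk) : -200000 ≤ pf x y ∧ pf x y ≤ 200000 := by
  obtain ⟨⟨a, ha⟩, ⟨b, hb⟩⟩ := x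
  obtain ⟨⟨c, hc⟩, ⟨d, hd⟩⟩ := y
  unfold pf hv
  simp only
  have ha' : (a : ℤ) ≤ 74 := by exact_mod_cast Nat.lt_succ_iff.mp ha
  have hb' : (b : ℤ) ≤ 74 := by exact_mod_cast Nat.lt_succ_iff.mp hb
  have hc' : (c : ℤ) ≤ 74 := by exact_mod_cast Nat.lt_succ_iff.mp hc
  have hd' : (d : ℤ) ≤ 74 := by exact_mod_cast Nat.lt_succ_iff.mp hd
  have ha0 : (0 : ℤ) ≤ a := Int.natCast_nonneg a
  have hb0 : (0 : ℤ) ≤ b := Int.natCast_nonneg b
  have hc0 : (0 : ℤ) ≤ c := Int.natCast_nonneg c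
  have hd0 : (0 : ℤ) ≤ d := Int.natCast_nonneg d
  have m : ∀ u v : ℤ, 0 ≤ u → u ≤ 74 → 0 ≤ v → v ≤ 74 → 0 ≤ u * v ∧ u * v ≤ 5476 := by
    intro u v h1 h2 h3 h4
    exact ⟨mul_nonneg h1 h3, by nlinarith⟩
  obtain ⟨_, _⟩ := m a c ha0 ha' hc0 hc'
  obtain ⟨_, _⟩ := m b d hb0 hb' hd0 hd'
  obtain ⟨_, _⟩ := m a d ha0 ha' hd0 hd'
  obtain ⟨_, _⟩ := m b c hb0 hb' hc0 hc'
  obtain ⟨_, _⟩ := m a b ha0 ha' hb0 hb'
  obtain ⟨_, _⟩ := m c d hc0 hc' hd0 hd'
  obtain ⟨_, _⟩ := m a a ha0 ha' ha0 ha'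
  obtain ⟨_, _⟩ := m b b hb0 hb' hb0 hb'
  obtain ⟨_, _⟩ := m c c hc0 hc' hc0 hc'
  obtain ⟨_, _⟩ := m d d hd0 hd' hd0 hd'
  simp only [sq]
  constructor <;> linarith

/-- shift the residue of a letter -/
def sh (p : Ltr) (s : ZMod 3) : Ltr :=
  ⟨3 * (p.val / 3) + (p.val % 3 + s.val) % 3, by
    have h1 : p.val / 3 ≤ 24 := by have := p.2; omega
    have h2 : (p.val % 3 + s.val) % 3 < 3 := Nat.mod_lt _ (by norm_num)
    omega⟩

theorem sh_div (p : Ltr) (s : ZMod 3) : (sh p s).val / 3 = p.val / 3 := by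
  unfold sh; simp only; omega

theorem ex_sh (p : Ltr) (s : ZMod 3) : ex (sh p s).val = ex p.val := by
  unfold ex; rw [sh_div]

theorem sh_cast (p : Ltr) (s : ZMod 3) : ((sh p s).val : ZMod 3) = (p.val : ZMod 3) + s := by
  have h1 : ((sh p s).val : ZMod 3) = ((p.val % 3 + s.val : ℕ) : ZMod 3) := by
    unfold sh
    simp only
    rw [ZMod.natCast_eq_natCast_iff']
    omega
  rw [h1]
  push_cast
  rw [ZMod.natCast_mod, ZMod.natCast_zmod_val]

theorem sh_inj (s : ZMod 3) {p p' : Ltr} (h : sh p s = sh p' s) : p = p' := by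
  have h1 := congrArg Fin.val h
  unfold sh at h1
  simp only at h1
  apply Fin.ext
  have : s.val < 3 := ZMod.val_lt s
  omega

end Pool.Agent.Helper54.W4
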