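import Mathlib
import Pool.Agent.Helper54.W4.Local

set_option autoImplicit false

namespace Pool.Agent.Helper54.W4

open Finset

noncomputable def rho : ℝ := 74 / 75

/-- coordinate triples with sum `111 + e` -/
def Pt (e : ℕ) : Finset (Ltr × Ltr × Ltr) :=
  univ.filter (fun t => t.1.val + t.2.1.val + t.2.2.val = 111 + e)

noncomputable def wt (t : Ltr × Ltr × Ltr) : ℝ :=
  rho ^ (2 * (ex t.1.val + ex t.2.1.val + ex t.2.2.val))

noncomputable def zz (e : ℕ) : ℝ := ∑ t ∈ Pt e, wt t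

noncomputable def vv : ℝ := ∑ p : Ltr, rho ^ (3 * ex p.val)

/-- loop used for kernel evaluation -/
def loop (f : ℕ → ℕ) (n : ℕ) : ℕ := Nat.rec 0 (fun k ih => ih + f k) n

theorem loop_eq (f : ℕ → ℕ) (n : ℕ) : loop f n = ∑ i ∈ range n, f i := by
  induction n with
  | zero => rfl
  | succ n ih =>
    rw [Finset.sum_range_succ, ← ih]
    rfl

def U (p : ℕ) : ℕ := 74 ^ (ex p) * 75 ^ (144 - ex p)

def zterm (e p q : ℕ) : ℕ :=
  if p + q ≤ 111 + e ∧ 111 + e - p - q < 75 then U p ^ 2 * U q ^ 2 * U (111 + e - p - q) ^ 2 else 0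

def zN (e : ℕ) : ℕ := loop (fun p => loop (fun q => zterm e p q) 75) 75

def vN : ℕ := loop (fun p => U p ^ 3) 75

theorem num_check : 5 * vN ^ 8 < (zN 0 ^ 2 + 2 * zN 0 * zN 1) ^ 2 := by
  decide +kernel

theorem rho_pos : 0 < rho := by unfold rho; norm_num

theorem rho_le_one : rho ≤ 1 := by unfold rho; norm_num

theorem U_real (p : Ltr) : (U p.val : ℝ) = rho ^ (ex p.val) * 75 ^ 144 := by
  have h := ex_le p
  unfold U rho
  push_cast
  rw [div_pow]
  have : (75 : ℝ) ^ 144 = 75 ^ (ex p.val) * 75 ^ (144 - ex p.val) := by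
    rw [← pow_add]; congr 1; omega
  rw [this]
  field_simp

theorem vv_eq : vv * 75 ^ 432 = (vN : ℝ) := by
  unfold vv vN
  rw [loop_eq]
  push_cast
  rw [Finset.sum_mul, Finset.sum_range (fun i => ((U i : ℝ)) ^ 3)]
  refine Finset.sum_congr rfl (fun p _ => ?_)
  rw [U_real, mul_pow, ← pow_mul, ← pow_mul, mul_comm (ex p.val) 3]

theorem sum_Pt (e : ℕ) (w : ℕ → ℝ) :
    ∑ t ∈ Pt e, w t.1.val * w t.2.1.val * w t.2.2.val
      = ∑ p ∈ range 75, ∑ q ∈ range 75,
          if p + q ≤ 111 + e ∧ 111 + e - p - q < 75 then w p * w q * w (111 + e - p - q) else 0 := by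
  classical
  unfold Pt
  rw [Finset.sum_filter, Fintype.sum_prod_type,
    Finset.sum_range (fun p => ∑ q ∈ range 75,
          if p + q ≤ 111 + e ∧ 111 + e - p - q < 75 then w p * w q * w (111 + e - p - q) else 0)]
  refine Finset.sum_congr rfl (fun p _ => ?_)
  rw [Fintype.sum_prod_type, Finset.sum_range (fun q =>
          if p.val + q ≤ 111 + e ∧ 111 + e - p.val - q < 75
            then w p.val * w q * w (111 + e - p.val - q) else 0)]
  refine Finset.sum_congr rfl (fun q _ => ?_)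
  simp only
  by_cases h : p.val + q.val ≤ 111 + e ∧ 111 + e - p.val - q.val < 75
  · rw [if_pos h, Finset.sum_eq_single (⟨111 + e - p.val - q.val, h.2⟩ : Ltr)]
    · rw [if_pos]
      simp only
      omega
    · intro r _ hr
      rw [if_neg]
      intro h2
      apply hr
      apply Fin.ext
      simp only
      omega
    · intro h2; exact absurd (Finset.mem_univ _) h2
  · rw [if_neg h]
    apply Finset.sum_eq_zero
    intro r _
    rw [if_neg]
    intro h2
    apply h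
    have := r.2
    omega

theorem zz_eq (e : ℕ) : zz e * 75 ^ 864 = (zN e : ℝ) := by
  unfold zz zN
  rw [loop_eq]
  push_cast
  have h1 : ∀ t ∈ Pt e, wt t * 75 ^ 864
      = (fun p : ℕ => (U p : ℝ) ^ 2) t.1.val * (fun p : ℕ => (U p : ℝ) ^ 2) t.2.1.val
        * (fun p : ℕ => (U p : ℝ) ^ 2) t.2.2.val := by
    intro t _
    simp only [U_real, wt, mul_pow, ← pow_mul]
    rw [show (864 : ℕ) = 144 * 2 + 144 * 2 + 144 * 2 by norm_num, pow_add, pow_add,
      show 2 * (ex t.1.val + ex t.2.1.val + ex t.2.2.val)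
        = ex t.1.val * 2 + ex t.2.1.val * 2 + ex t.2.2.val * 2 by ring, pow_add, pow_add]
    ring
  rw [Finset.sum_mul, Finset.sum_congr rfl h1, sum_Pt e (fun p : ℕ => (U p : ℝ) ^ 2)]
  refine Finset.sum_congr rfl (fun p _ => ?_)
  rw [loop_eq]
  push_cast
  refine Finset.sum_congr rfl (fun q _ => ?_)
  unfold zterm
  split_ifs <;> simp

theorem vv_pos : 0 < vv := by
  unfold vv
  apply Finset.sum_pos
  · intro p _; exact pow_pos rho_pos _
  · exact ⟨0, Finset.mem_univ _⟩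

theorem zz_nonneg (e : ℕ) : 0 ≤ zz e :=
  Finset.sum_nonneg (fun _ _ => pow_nonneg rho_pos.le _)

theorem key_ineq : 5 * vv ^ 8 < (zz 0 ^ 2 + 2 * zz 0 * zz 1) ^ 2 := by
  have h := num_check
  have h' : (5 : ℝ) * (vN : ℝ) ^ 8 < ((zN 0 : ℝ) ^ 2 + 2 * (zN 0 : ℝ) * (zN 1 : ℝ)) ^ 2 := by
    exact_mod_cast h
  rw [← vv_eq, ← zz_eq, ← zz_eq] at h'
  have hp : (0 : ℝ) < 75 ^ 3456 := by positivity
  have e1 : (5 : ℝ) * (vv * 75 ^ 432) ^ 8 = (5 * vv ^ 8) * 75 ^ 3456 := by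
    rw [mul_pow, ← pow_mul]; ring
  have e2 : ((zz 0 * 75 ^ 864) ^ 2 + 2 * (zz 0 * 75 ^ 864) * (zz 1 * 75 ^ 864)) ^ 2
      = (zz 0 ^ 2 + 2 * zz 0 * zz 1) ^ 2 * (75 : ℝ) ^ 3456 := by
    have : (75 : ℝ) ^ 3456 = ((75 : ℝ) ^ 864) ^ 4 := by rw [← pow_mul]
    rw [this]; ring
  rw [e1, e2] at h'
  exact lt_of_mul_lt_mul_right h' hp.le

end Pool.Agent.Helper54.W4
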