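import Mathlib
import Pool.Agent.Helper54.W4.Local
import Pool.Agent.Helper54.W4.Numeric

set_option autoImplicit false

namespace Pool.Agent.Helper54.W4

open Finset

attribute [local irreducible] Pt

abbrev Cell := (Ltr × Ltr × Ltr) × (Ltr × Ltr × Ltr)

def cx (t : Cell) : Blk := (t.1.1, t.2.1)
def cy (t : Cell) : Blk := (t.1.2.1, t.2.2.1)
def cz (t : Cell) : Blk := (t.1.2.2, t.2.2.2)

theorem cell_ext {s t : Cell} (h1 : cx s = cx t) (h2 : cy s = cy t) (h3 : cz s = cz t) :
    s = t := by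
  obtain ⟨⟨a, b, c⟩, ⟨d, e, f⟩⟩ := s
  obtain ⟨⟨a', b', c'⟩, ⟨d', e', f'⟩⟩ := t
  simp only [cx, cy, cz, Prod.mk.injEq] at *
  tauto

def RS : Finset Cell := (Pt 0 ×ˢ Pt 0) ∪ ((Pt 1 ×ˢ Pt 0) ∪ (Pt 0 ×ˢ Pt 1))

theorem rel_of_mem {t : Cell} (h : t ∈ RS) : Rel (cx t) (cy t) (cz t) := by
  unfold RS at h
  simp only [Finset.mem_union, Finset.mem_product, Pt, Finset.mem_filter, Finset.mem_univ,
    true_and] at h
  unfold Rel InE cx cy cz
  simp only
  omega

def exb (x : Blk) : ℕ := ex x.1.val + ex x.2.val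

theorem exb_le (x : Blk) : exb x ≤ 288 := by
  have h1 := ex_le x.1
  have h2 := ex_le x.2
  unfold exb; omega

noncomputable def ZZ : ℝ := zz 0 ^ 2 + 2 * zz 0 * zz 1

noncomputable def VV : ℝ := vv ^ 2

theorem VV_pos : 0 < VV := by unfold VV; exact pow_pos vv_pos 2

theorem ZZ_nonneg : 0 ≤ ZZ := by
  unfold ZZ
  have h0 := zz_nonneg 0
  have h1 := zz_nonneg 1
  positivity

theorem VV_eq : ∑ x : Blk, rho ^ (3 * exb x) = VV := by
  unfold VV vv
  rw [Fintype.sum_prod_type, sq, Finset.sum_mul_sum]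
  refine Finset.sum_congr rfl (fun p _ => Finset.sum_congr rfl (fun q _ => ?_))
  unfold exb
  rw [← pow_add]
  congr 1
  ring

noncomputable def cw (t : Cell) : ℝ := rho ^ (2 * (exb (cx t) + exb (cy t) + exb (cz t)))

theorem cw_eq (t : Cell) : cw t = wt t.1 * wt t.2 := by
  unfold cw wt exb cx cy cz
  simp only
  rw [← pow_add]
  congr 1
  ring

theorem sum_prod_wt (e f : ℕ) : ∑ t ∈ Pt e ×ˢ Pt f, cw t = zz e * zz f := by
  unfold zz
  rw [Finset.sum_mul_sum, Finset.sum_product]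
  refine Finset.sum_congr rfl (fun p _ => Finset.sum_congr rfl (fun q _ => ?_))
  rw [cw_eq]

theorem Pt_disj {t : Ltr × Ltr × Ltr} (h0 : t ∈ Pt 0) (h1 : t ∈ Pt 1) : False := by
  unfold Pt at h0 h1
  simp only [Finset.mem_filter] at h0 h1
  omega

theorem ZZ_eq : ∑ t ∈ RS, cw t = ZZ := by
  unfold RS
  rw [Finset.sum_union, Finset.sum_union, sum_prod_wt, sum_prod_wt, sum_prod_wt]
  · unfold ZZ; ring
  · rw [Finset.disjoint_left]
    intro t h h'
    rw [Finset.mem_product] at h h'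
    exact Pt_disj h'.1 h.1
  · rw [Finset.disjoint_left]
    intro t h h'
    rw [Finset.mem_union, Finset.mem_product, Finset.mem_product] at h'
    rw [Finset.mem_product] at h
    rcases h' with h' | h'
    · exact Pt_disj h.1 h'.1
    · exact Pt_disj h.2 h'.2

abbrev GV (k : ℕ) := Fin k → Blk

def key {k : ℕ} (f : GV k) : ℕ := ∑ i, exb (f i)

theorem key_le {k : ℕ} (f : GV k) : key f ≤ 288 * k := by
  unfold key
  calc ∑ i, exb (f i) ≤ ∑ _i : Fin k, 288 := Finset.sum_le_sum (fun i _ => exb_le _)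
    _ = 288 * k := by simp [mul_comm]

def Sk (k κ : ℕ) : Finset (GV k) := univ.filter (fun f => key f = κ)

theorem card_Sk (k κ : ℕ) : ((Sk k κ).card : ℝ) * rho ^ (3 * κ) ≤ VV ^ k := by
  have h1 : ∑ f : GV k, rho ^ (3 * key f) = VV ^ k := by
    rw [← VV_eq, Fintype.sum_pow]
    refine Finset.sum_congr rfl (fun f _ => ?_)
    rw [Finset.prod_pow_eq_pow_sum]
    congr 1
    unfold key
    rw [Finset.mul_sum]
  rw [← h1]
  calc ((Sk k κ).card : ℝ) * rho ^ (3 * κ) = ∑ f ∈ Sk k κ, rho ^ (3 * key f) := by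
        rw [Finset.sum_congr rfl (g := fun _ => rho ^ (3 * κ))]
        · simp
        · intro f hf
          unfold Sk at hf
          rw [Finset.mem_filter] at hf
          rw [hf.2]
    _ ≤ ∑ f : GV k, rho ^ (3 * key f) :=
        Finset.sum_le_sum_of_subset_of_nonneg (Finset.subset_univ _)
          (fun _ _ _ => pow_nonneg rho_pos.le _)

abbrev CV (k : ℕ) := Fin k → Cell

def gx {k : ℕ} (t : CV k) : GV k := fun i => cx (t i)
def gy {k : ℕ} (t : CV k) : GV k := fun i => cy (t i)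
def gz {k : ℕ} (t : CV k) : GV k := fun i => cz (t i)

def TS (k : ℕ) : Finset (CV k) := Fintype.piFinset (fun _ => RS)

theorem sum_TS (k : ℕ) :
    ∑ t ∈ TS k, rho ^ (2 * (key (gx t) + key (gy t) + key (gz t))) = ZZ ^ k := by
  have h := Finset.prod_univ_sum (fun _ : Fin k => RS) (fun _ c => cw c)
  rw [Finset.prod_const, Finset.card_univ, Fintype.card_fin, ZZ_eq] at h
  rw [h]
  unfold TS
  refine Finset.sum_congr rfl (fun t _ => ?_)
  unfold cw
  rw [Finset.prod_pow_eq_pow_sum]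
  congr 1
  unfold key gx gy gz
  rw [← Finset.mul_sum, Finset.sum_add_distrib, Finset.sum_add_distrib]

def TC (k a b c : ℕ) : Finset (CV k) :=
  (TS k).filter (fun t => key (gx t) = a ∧ key (gy t) = b ∧ key (gz t) = c)

theorem exists_class (k : ℕ) : ∃ a b c : ℕ,
    ZZ ^ k ≤ (288 * k + 1 : ℝ) ^ 3 * ((TC k a b c).card * rho ^ (2 * (a + b + c))) := by
  classical
  by_contra hcon
  push Not at hcon
  set L := range (288 * k + 1) with hL
  have hmaps : ∀ t ∈ TS k, (key (gx t), key (gy t), key (gz t)) ∈ L ×ˢ (L ×ˢ L) := by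
    intro t _
    rw [Finset.mem_product, Finset.mem_product, hL, Finset.mem_range, Finset.mem_range,
      Finset.mem_range]
    have h1 := key_le (gx t)
    have h2 := key_le (gy t)
    have h3 := key_le (gz t)
    refine ⟨?_, ?_, ?_⟩ <;> simp only <;> omega
  have hsum := Finset.sum_fiberwise_of_maps_to hmaps
    (fun t => rho ^ (2 * (key (gx t) + key (gy t) + key (gz t))))
  rw [sum_TS] at hsum
  have hfib : ∀ q ∈ L ×ˢ (L ×ˢ L),
      (288 * k + 1 : ℝ) ^ 3 * ∑ t ∈ (TS k).filter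
        (fun t => (key (gx t), key (gy t), key (gz t)) = q),
        rho ^ (2 * (key (gx t) + key (gy t) + key (gz t))) < ZZ ^ k := by
    rintro ⟨a, b, c⟩ _
    have h1 : ∑ t ∈ (TS k).filter (fun t => (key (gx t), key (gy t), key (gz t)) = (a, b, c)),
        rho ^ (2 * (key (gx t) + key (gy t) + key (gz t)))
        = (TC k a b c).card * rho ^ (2 * (a + b + c)) := by
      have : (TS k).filter (fun t => (key (gx t), key (gy t), key (gz t)) = (a, b, c))
          = TC k a b c := by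
        unfold TC
        refine Finset.filter_congr (fun t _ => ?_)
        simp [Prod.ext_iff]
      rw [this, Finset.sum_congr rfl (g := fun _ => rho ^ (2 * (a + b + c)))]
      · simp
      · intro t ht
        unfold TC at ht
        rw [Finset.mem_filter] at ht
        rw [ht.2.1, ht.2.2.1, ht.2.2.2]
    rw [h1]
    exact hcon a b c
  have hne : (L ×ˢ (L ×ˢ L)).Nonempty :=
    ⟨(0, 0, 0), by simp [hL]⟩
  have hlt := Finset.sum_lt_sum_of_nonempty hne hfib
  rw [← Finset.mul_sum, hsum, Finset.sum_const, Finset.card_product, Finset.card_product, hL,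
    Finset.card_range, nsmul_eq_mul] at hlt
  push_cast at hlt
  have : (288 * (k : ℝ) + 1) ^ 3 = (288 * (k : ℝ) + 1) * ((288 * (k : ℝ) + 1) * (288 * (k : ℝ) + 1)) := by
    ring
  rw [this] at hlt
  exact lt_irrefl _ hlt

end Pool.Agent.Helper54.W4
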