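import Mathlib
import Pool.Agent.Helper54.W4.Groups

set_option autoImplicit false

namespace Pool.Agent.Helper54.W4

open Finset

attribute [local irreducible] Pt RS

abbrev FV (k : ℕ) := Fin 3 → GV k

def AS (k : ℕ) (κ : Fin 3 → ℕ) : Finset (FV k) := Fintype.piFinset (fun g => Sk k (κ g))

theorem mem_AS {k : ℕ} {κ : Fin 3 → ℕ} {F : FV k} : F ∈ AS k κ ↔ ∀ g, key (F g) = κ g := by
  unfold AS Sk
  rw [Fintype.mem_piFinset]
  simp

theorem card_AS (k : ℕ) (κ : Fin 3 → ℕ) :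
    (AS k κ).card = (Sk k (κ 0)).card * (Sk k (κ 1)).card * (Sk k (κ 2)).card := by
  unfold AS
  rw [Fintype.card_piFinset, Fin.prod_univ_three]

theorem card_AS_rot (k : ℕ) (κ : Fin 3 → ℕ) (j : Fin 3) :
    (AS k (fun g => κ (g + j))).card = (AS k κ).card := by
  rw [card_AS, card_AS]
  fin_cases j
  · simp
  · simp only [Fin.mk_one, Fin.isValue, zero_add]
    rw [show (1 : Fin 3) + 1 = 2 from rfl, show (2 : Fin 3) + 1 = 0 from rfl]
    ring
  · simp only [Fin.reduceFinMk, Fin.isValue, zero_add]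
    rw [show (1 : Fin 3) + 2 = 0 from rfl, show (2 : Fin 3) + 2 = 1 from rfl]
    ring

def comp {k : ℕ} (j : Fin 3) (t : CV k) : GV k := ![gx t, gy t, gz t] j

theorem key_comp {k a b c : ℕ} {t : CV k} (ht : t ∈ TC k a b c) (j : Fin 3) :
    key (comp j t) = (![a, b, c] : Fin 3 → ℕ) j := by
  unfold TC at ht
  rw [Finset.mem_filter] at ht
  fin_cases j
  · exact ht.2.1
  · exact ht.2.2.1
  · exact ht.2.2.2

theorem rel_comp {k a b c : ℕ} {t : CV k} (ht : t ∈ TC k a b c) (g : Fin 3) (i : Fin k) :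
    Rel (comp g t i) (comp (g + 1) t i) (comp (g + 2) t i) := by
  unfold TC TS at ht
  rw [Finset.mem_filter, Fintype.mem_piFinset] at ht
  have h := rel_of_mem (ht.1 i)
  fin_cases g
  · exact h
  · exact h.rot
  · exact h.rot.rot

theorem comp_inj {k : ℕ} {t t' : CV k} (g : Fin 3) (h0 : comp g t = comp g t')
    (h1 : comp (g + 1) t = comp (g + 1) t') (h2 : comp (g + 2) t = comp (g + 2) t') :
    t = t' := by
  have h : gx t = gx t' ∧ gy t = gy t' ∧ gz t = gz t' := by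
    fin_cases g
    · exact ⟨h0, h1, h2⟩
    · exact ⟨h2, h0, h1⟩
    · exact ⟨h1, h2, h0⟩
  funext i
  exact cell_ext (congrFun h.1 i) (congrFun h.2.1 i) (congrFun h.2.2 i)

def TF (k : ℕ) (κ : Fin 3 → ℕ) : Finset (FV k × FV k × FV k) :=
  (AS k κ ×ˢ (AS k (fun g => κ (g + 1)) ×ˢ AS k (fun g => κ (g + 2)))).filter
    (fun q => ∀ g i, Rel (q.1 g i) (q.2.1 g i) (q.2.2 g i))

theorem card_TF (k a b c : ℕ) :
    (TC k a b c).card ^ 3 ≤ (TF k ![a, b, c]).card := by
  have h := Finset.card_le_card_of_injOn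
    (s := Fintype.piFinset (fun _ : Fin 3 => TC k a b c)) (t := TF k ![a, b, c])
    (fun t => ((fun g => comp g (t g) : FV k), (fun g => comp (g + 1) (t g) : FV k),
      (fun g => comp (g + 2) (t g) : FV k))) ?_ ?_
  · rw [Fintype.card_piFinset, Finset.prod_const, Finset.card_univ, Fintype.card_fin] at h
    exact h
  · intro t ht
    rw [Finset.mem_coe, Fintype.mem_piFinset] at ht
    rw [Finset.mem_coe]
    unfold TF
    rw [Finset.mem_filter, Finset.mem_product, Finset.mem_product, mem_AS, mem_AS, mem_AS]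
    refine ⟨⟨?_, ?_, ?_⟩, ?_⟩
    · intro g; exact key_comp (ht g) g
    · intro g; exact key_comp (ht g) (g + 1)
    · intro g; exact key_comp (ht g) (g + 2)
    · intro g i; exact rel_comp (ht g) g i
  · intro t _ t' _ heq
    simp only [Prod.mk.injEq] at heq
    funext g
    exact comp_inj g (congrFun heq.1 g) (congrFun heq.2.1 g) (congrFun heq.2.2 g)

/-! ### hash -/

abbrev Ix (k : ℕ) := Fin 3 × Fin k

def lv {k : ℕ} (F : FV k) : Ix k → ZMod 3 := fun t => lam (F t.1 t.2)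

def Phi {k r : ℕ} (H : Fin r → Ix k → ZMod 3) (F : FV k) : Fin r → ZMod 3 :=
  fun j => ∑ t, H j t * lv F t

def Im {k r : ℕ} (H : Fin r → Ix k → ZMod 3) : Finset (Fin r → ZMod 3) :=
  univ.image (Phi H)

def shF {k : ℕ} (F : FV k) (s : Ix k → ZMod 3) : FV k :=
  fun g i => (sh (F g i).1 (s (g, i)), (F g i).2)

theorem key_shF {k : ℕ} (F : FV k) (s : Ix k → ZMod 3) (g : Fin 3) :
    key (shF F s g) = key (F g) := by
  unfold key shF exb
  simp only [ex_sh]

theorem lv_shF {k : ℕ} (F : FV k) (s : Ix k → ZMod 3) (t : Ix k) :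
    lv (shF F s) t = lv F t + s t := by
  unfold lv shF lam
  simp only
  rw [sh_cast]
  ring

theorem shF_inj {k : ℕ} (s : Ix k → ZMod 3) : Function.Injective (fun F : FV k => shF F s) := by
  intro F F' h
  funext g i
  have h1 : shF F s g i = shF F' s g i := congrFun (congrFun h g) i
  unfold shF at h1
  rw [Prod.mk.injEq] at h1
  exact Prod.ext (sh_inj _ h1.1) h1.2

def fib {k r : ℕ} (H : Fin r → Ix k → ZMod 3) (κ : Fin 3 → ℕ) (α : Fin r → ZMod 3) :
    Finset (FV k) := (AS k κ).filter (fun F => Phi H F = α)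

theorem fib_le {k r : ℕ} (H : Fin r → Ix k → ZMod 3) (κ : Fin 3 → ℕ) {α β : Fin r → ZMod 3}
    (hα : α ∈ Im H) (hβ : β ∈ Im H) : (fib H κ α).card ≤ (fib H κ β).card := by
  unfold Im at hα hβ
  rw [Finset.mem_image] at hα hβ
  obtain ⟨F1, -, h1⟩ := hα
  obtain ⟨F2, -, h2⟩ := hβ
  refine Finset.card_le_card_of_injOn (fun F => shF F (fun t => lv F2 t - lv F1 t)) ?_
    ((shF_inj _).injOn)
  intro F hF
  unfold fib at hF ⊢
  rw [Finset.mem_coe, Finset.mem_filter, mem_AS] at hF ⊢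
  refine ⟨fun g => ?_, ?_⟩
  · rw [key_shF]; exact hF.1 g
  · have hF2 := hF.2
    funext j
    have e0 : ∑ t, H j t * lv F t = α j := congrFun hF2 j
    have e1 : ∑ t, H j t * lv F1 t = α j := congrFun h1 j
    have e2 : ∑ t, H j t * lv F2 t = β j := congrFun h2 j
    unfold Phi
    simp only [lv_shF, mul_add, mul_sub, Finset.sum_add_distrib, Finset.sum_sub_distrib]
    rw [e0, e1, e2]
    ring

theorem fib_card {k r : ℕ} (H : Fin r → Ix k → ZMod 3) (κ : Fin 3 → ℕ) {α : Fin r → ZMod 3}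
    (hα : α ∈ Im H) : (Im H).card * (fib H κ α).card = (AS k κ).card := by
  have hmaps : ∀ F ∈ AS k κ, Phi H F ∈ Im H := by
    intro F _
    unfold Im
    exact Finset.mem_image_of_mem _ (Finset.mem_univ _)
  rw [Finset.card_eq_sum_card_fiberwise hmaps, Finset.sum_congr rfl
    (g := fun _ => (fib H κ α).card)]
  · rw [Finset.sum_const, smul_eq_mul]
  · intro β hβ
    exact le_antisymm (fib_le H κ hβ hα) (fib_le H κ hα hβ)

/-! ### pair function -/

def PF {k : ℕ} (F G : FV k) : ℤ := ∑ g, ∑ i, pf (F g i) (G g i)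

theorem PF_comm {k : ℕ} (F G : FV k) : PF F G = PF G F := by
  unfold PF
  refine Finset.sum_congr rfl (fun g _ => Finset.sum_congr rfl (fun i _ => pf_comm _ _))

theorem PF_bound {k : ℕ} (F G : FV k) : -(600000 * (k : ℤ)) ≤ PF F G ∧ PF F G ≤ 600000 * k := by
  unfold PF
  constructor
  · calc -(600000 * (k : ℤ)) = ∑ _g : Fin 3, ∑ _i : Fin k, (-200000 : ℤ) := by
          simp; ring
      _ ≤ _ := Finset.sum_le_sum (fun g _ => Finset.sum_le_sum (fun i _ => (pf_bound _ _).1))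
  · calc _ ≤ ∑ _g : Fin 3, ∑ _i : Fin k, (200000 : ℤ) :=
          Finset.sum_le_sum (fun g _ => Finset.sum_le_sum (fun i _ => (pf_bound _ _).2))
      _ = 600000 * k := by simp; ring

def QF {k : ℕ} (F G K : FV k) : ℤ := ∑ g, ∑ i,
  qf (((F g i).1.val : ℤ) + (G g i).1.val + (K g i).1.val - 111)
    (((F g i).2.val : ℤ) + (G g i).2.val + (K g i).2.val - 111)

theorem PF_sum {k : ℕ} (F G K : FV k) :
    PF F G + PF G K + PF F K = 2 * QF F G K - 74370 * (3 * k) := by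
  unfold PF QF
  rw [← Finset.sum_add_distrib, ← Finset.sum_add_distrib]
  simp only [← Finset.sum_add_distrib]
  rw [Finset.mul_sum]
  have : (74370 * (3 * (k : ℤ))) = ∑ _g : Fin 3, ∑ _i : Fin k, (74370 : ℤ) := by
    simp; ring
  rw [this, ← Finset.sum_sub_distrib]
  refine Finset.sum_congr rfl (fun g _ => ?_)
  rw [Finset.mul_sum, ← Finset.sum_sub_distrib]
  refine Finset.sum_congr rfl (fun i _ => ?_)
  exact pf_sum _ _ _

theorem QF_zero_of_rel {k : ℕ} {F G K : FV k} (h : ∀ g i, Rel (F g i) (G g i) (K g i)) :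
    QF F G K = 0 := by
  unfold QF
  refine Finset.sum_eq_zero (fun g _ => Finset.sum_eq_zero (fun i _ => ?_))
  have := h g i
  unfold Rel InE at this
  unfold qf
  rcases this with ⟨h1, h2⟩ | ⟨h1, h2⟩ | ⟨h1, h2⟩ <;> rw [h1, h2] <;> norm_num

theorem rel_of_QF_zero {k : ℕ} {F G K : FV k} (h : QF F G K = 0) :
    ∀ g i, Rel (F g i) (G g i) (K g i) := by
  unfold QF at h
  intro g i
  have h1 := (Finset.sum_eq_zero_iff_of_nonneg
    (fun g _ => Finset.sum_nonneg (fun i _ => qf_nonneg _ _))).mp h g (Finset.mem_univ _)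
  have h2 := (Finset.sum_eq_zero_iff_of_nonneg
    (fun i _ => qf_nonneg _ _)).mp h1 i (Finset.mem_univ _)
  exact inE_of_qf _ _ h2

/-- the final class of triples -/
def cls {k r : ℕ} (H : Fin r → Ix k → ZMod 3) (κ : Fin 3 → ℕ)
    (q : ((Fin r → ZMod 3) × (Fin r → ZMod 3) × (Fin r → ZMod 3)) × (ℤ × ℤ × ℤ)) :
    Finset (FV k × FV k × FV k) :=
  (TF k κ).filter (fun s => ((Phi H s.1, Phi H s.2.1, Phi H s.2.2),
    (PF s.1 s.2.1, PF s.2.1 s.2.2, PF s.1 s.2.2)) = q)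

theorem exists_cls {k r : ℕ} (H : Fin r → Ix k → ZMod 3) (κ : Fin 3 → ℕ) :
    ∃ q : ((Fin r → ZMod 3) × (Fin r → ZMod 3) × (Fin r → ZMod 3)) × (ℤ × ℤ × ℤ),
      q.1.1 ∈ Im H ∧ q.1.2.1 ∈ Im H ∧ q.1.2.2 ∈ Im H ∧
      (TF k κ).card ≤ (cls H κ q).card * ((Im H).card ^ 3 * (1200000 * k + 1) ^ 3) := by
  classical
  set J : Finset ℤ := Finset.Icc (-(600000 * (k : ℤ))) (600000 * k) with hJ
  set Keys := (Im H ×ˢ (Im H ×ˢ Im H)) ×ˢ (J ×ˢ (J ×ˢ J)) with hKeys
  have hJc : J.card = 1200000 * k + 1 := by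
    rw [hJ, Int.card_Icc]; omega
  have hPhi : ∀ F : FV k, Phi H F ∈ Im H := fun F => by
    unfold Im; exact Finset.mem_image_of_mem _ (Finset.mem_univ _)
  have hPF : ∀ F G : FV k, PF F G ∈ J := fun F G => by
    rw [hJ, Finset.mem_Icc]; exact PF_bound F G
  have hmaps : ∀ s ∈ TF k κ, ((Phi H s.1, Phi H s.2.1, Phi H s.2.2),
    (PF s.1 s.2.1, PF s.2.1 s.2.2, PF s.1 s.2.2)) ∈ Keys := by
    intro s _
    rw [hKeys]
    simp only [Finset.mem_product]
    exact ⟨⟨hPhi _, hPhi _, hPhi _⟩, hPF _ _, hPF _ _, hPF _ _⟩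
  have F0 : FV k := fun _ _ => (0, 0)
  have hne : Keys.Nonempty := by
    refine ⟨((Phi H F0, Phi H F0, Phi H F0), (PF F0 F0, PF F0 F0, PF F0 F0)), ?_⟩
    rw [hKeys]
    simp only [Finset.mem_product]
    exact ⟨⟨hPhi _, hPhi _, hPhi _⟩, hPF _ _, hPF _ _, hPF _ _⟩
  obtain ⟨q, hq, hmax⟩ := Finset.exists_max_image Keys (fun q => (cls H κ q).card) hne
  refine ⟨q, ?_, ?_, ?_, ?_⟩
  · rw [hKeys] at hq; simp only [Finset.mem_product] at hq; exact hq.1.1
  · rw [hKeys] at hq; simp only [Finset.mem_product] at hq; exact hq.1.2.1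
  · rw [hKeys] at hq; simp only [Finset.mem_product] at hq; exact hq.1.2.2
  · have h1 := Finset.card_le_mul_card_image_of_maps_to hmaps (cls H κ q).card
      (fun b hb => hmax b hb)
    refine h1.trans (Nat.mul_le_mul_left _ (le_of_eq ?_))
    rw [hKeys]
    simp only [Finset.card_product, hJc]
    ring

end Pool.Agent.Helper54.W4
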