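import Mathlib
import Pool.Agent.Helper54.W4.Full

set_option autoImplicit false

namespace Pool.Agent.Helper54.W4

open Finset

attribute [local irreducible] Pt RS

abbrev Vt (k : ℕ) := Fin 3 × FV k

/-- the hyperedge of a triple -/
def edg {k : ℕ} (s : FV k × FV k × FV k) : Finset (Vt k) :=
  {(0, s.1), (1, s.2.1), (2, s.2.2)}

def HG {k r : ℕ} (H : Fin r → Ix k → ZMod 3) (κ : Fin 3 → ℕ)
    (q : ((Fin r → ZMod 3) × (Fin r → ZMod 3) × (Fin r → ZMod 3)) × (ℤ × ℤ × ℤ)) :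
    Finset (Finset (Vt k)) := (cls H κ q).image edg

theorem card_edg {k : ℕ} (s : FV k × FV k × FV k) : (edg s).card = 3 := by
  unfold edg
  rw [Finset.card_insert_of_notMem, Finset.card_insert_of_notMem, Finset.card_singleton]
  · simp
  · simp

theorem edg_inj {k : ℕ} : Function.Injective (edg (k := k)) := by
  intro s t h
  have m0 : ((0 : Fin 3), s.1) ∈ edg t := by rw [← h]; unfold edg; simp
  have m1 : ((1 : Fin 3), s.2.1) ∈ edg t := by rw [← h]; unfold edg; simp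
  have m2 : ((2 : Fin 3), s.2.2) ∈ edg t := by rw [← h]; unfold edg; simp
  unfold edg at m0 m1 m2
  simp only [Finset.mem_insert, Finset.mem_singleton, Prod.mk.injEq] at m0 m1 m2
  have e0 : s.1 = t.1 := by
    rcases m0 with h | h | h
    · exact h.2
    · exact absurd h.1 (by decide)
    · exact absurd h.1 (by decide)
  have e1 : s.2.1 = t.2.1 := by
    rcases m1 with h | h | h
    · exact absurd h.1 (by decide)
    · exact h.2
    · exact absurd h.1 (by decide)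
  have e2 : s.2.2 = t.2.2 := by
    rcases m2 with h | h | h
    · exact absurd h.1 (by decide)
    · exact absurd h.1 (by decide)
    · exact h.2
  exact Prod.ext e0 (Prod.ext e1 e2)

theorem card_HG {k r : ℕ} (H : Fin r → Ix k → ZMod 3) (κ : Fin 3 → ℕ)
    (q : ((Fin r → ZMod 3) × (Fin r → ZMod 3) × (Fin r → ZMod 3)) × (ℤ × ℤ × ℤ)) :
    (HG H κ q).card = (cls H κ q).card := by
  unfold HG
  exact Finset.card_image_of_injective _ edg_inj

/-- adjacency in the shadow -/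
def Sh {k : ℕ} (HH : Finset (Finset (Vt k))) (x y : Vt k) : Prop :=
  x ≠ y ∧ ∃ e ∈ HH, x ∈ e ∧ y ∈ e

theorem Sh.symm {k : ℕ} {HH : Finset (Finset (Vt k))} {x y : Vt k} (h : Sh HH x y) :
    Sh HH y x := ⟨h.1.symm, by obtain ⟨e, he, hx, hy⟩ := h.2; exact ⟨e, he, hy, hx⟩⟩

/-- values of the hash on the three parts -/
def av {r : ℕ} (q : ((Fin r → ZMod 3) × (Fin r → ZMod 3) × (Fin r → ZMod 3)) × (ℤ × ℤ × ℤ)) :
    Fin 3 → (Fin r → ZMod 3) := ![q.1.1, q.1.2.1, q.1.2.2]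

/-- values of the pair function on the pairs of parts -/
def pv {r : ℕ} (q : ((Fin r → ZMod 3) × (Fin r → ZMod 3) × (Fin r → ZMod 3)) × (ℤ × ℤ × ℤ)) :
    Fin 3 → Fin 3 → ℤ := ![![0, q.2.1, q.2.2.2], ![q.2.1, 0, q.2.2.1], ![q.2.2.2, q.2.2.1, 0]]

theorem shadow_facts {k r : ℕ} {H : Fin r → Ix k → ZMod 3} {κ : Fin 3 → ℕ}
    {q : ((Fin r → ZMod 3) × (Fin r → ZMod 3) × (Fin r → ZMod 3)) × (ℤ × ℤ × ℤ)}
    {x y : Vt k} (h : Sh (HG H κ q) x y) :
    x.1 ≠ y.1 ∧ Phi H x.2 = av q x.1 ∧ Phi H y.2 = av q y.1 ∧ PF x.2 y.2 = pv q x.1 y.1 := by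
  obtain ⟨hne, e, he, hx, hy⟩ := h
  unfold HG at he
  rw [Finset.mem_image] at he
  obtain ⟨s, hs, rfl⟩ := he
  unfold cls at hs
  rw [Finset.mem_filter] at hs
  obtain ⟨-, hq⟩ := hs
  rw [← hq]
  unfold edg at hx hy
  rw [Finset.mem_insert, Finset.mem_insert, Finset.mem_singleton] at hx hy
  rcases hx with rfl | rfl | rfl <;> rcases hy with rfl | rfl | rfl
  · exact absurd rfl hne
  · exact ⟨(by decide : (0 : Fin 3) ≠ 1), rfl, rfl, rfl⟩
  · exact ⟨(by decide : (0 : Fin 3) ≠ 2), rfl, rfl, rfl⟩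
  · exact ⟨(by decide : (1 : Fin 3) ≠ 0), rfl, rfl, PF_comm _ _⟩
  · exact absurd rfl hne
  · exact ⟨(by decide : (1 : Fin 3) ≠ 2), rfl, rfl, rfl⟩
  · exact ⟨(by decide : (2 : Fin 3) ≠ 0), rfl, rfl, PF_comm _ _⟩
  · exact ⟨(by decide : (2 : Fin 3) ≠ 1), rfl, rfl, PF_comm _ _⟩
  · exact absurd rfl hne

theorem sum_const_of_mem {k r : ℕ} {H : Fin r → Ix k → ZMod 3} {κ : Fin 3 → ℕ}
    {q : ((Fin r → ZMod 3) × (Fin r → ZMod 3) × (Fin r → ZMod 3)) × (ℤ × ℤ × ℤ)}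
    {x y : Vt k} (h : Sh (HG H κ q) x y) :
    q.2.1 + q.2.2.1 + q.2.2.2 = - (74370 * (3 * (k : ℤ))) := by
  obtain ⟨-, e, he, -, -⟩ := h
  unfold HG at he
  rw [Finset.mem_image] at he
  obtain ⟨s, hs, -⟩ := he
  unfold cls at hs
  rw [Finset.mem_filter] at hs
  obtain ⟨hs, hq⟩ := hs
  rw [← hq]
  unfold TF at hs
  rw [Finset.mem_filter] at hs
  have h1 := PF_sum s.1 s.2.1 s.2.2
  rw [QF_zero_of_rel hs.2] at h1
  simp only
  linarith

theorem rel_of_triangle {k r : ℕ} {H : Fin r → Ix k → ZMod 3} {κ : Fin 3 → ℕ}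
    {q : ((Fin r → ZMod 3) × (Fin r → ZMod 3) × (Fin r → ZMod 3)) × (ℤ × ℤ × ℤ)}
    {x y z : Vt k} (hxy : Sh (HG H κ q) x y) (hyz : Sh (HG H κ q) y z)
    (hxz : Sh (HG H κ q) x z) : ∀ g i, Rel (x.2 g i) (y.2 g i) (z.2 g i) := by
  apply rel_of_QF_zero
  have h1 := PF_sum x.2 y.2 z.2
  obtain ⟨n1, -, -, e1⟩ := shadow_facts hxy
  obtain ⟨n2, -, -, e2⟩ := shadow_facts hyz
  obtain ⟨n3, -, -, e3⟩ := shadow_facts hxz
  have hc := sum_const_of_mem hxy
  rw [e1, e2, e3] at h1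
  have hsum : pv q x.1 y.1 + pv q y.1 z.1 + pv q x.1 z.1 = q.2.1 + q.2.2.1 + q.2.2.2 := by
    generalize x.1 = a at *
    generalize y.1 = b at *
    generalize z.1 = c at *
    fin_cases a <;> fin_cases b <;> fin_cases c <;>
      first
        | (exfalso; exact n1 rfl)
        | (exfalso; exact n2 rfl)
        | (exfalso; exact n3 rfl)
        | (simp [pv]; try ring)
  rw [hsum, hc] at h1
  linarith

/-- The family contains no copy of the wheel with four spokes in its shadow. -/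
theorem no_wheel {k r : ℕ} {H : Fin r → Ix k → ZMod 3}
    (hH : ∀ x y : Ix k → ZMod 3, x ≠ 0 → y ≠ 0 →
      (∀ i, x i = 0 ∨ y i = 0) → (∀ j, ∑ t, H j t * x t = 0) →
      (∀ j, ∑ t, H j t * y t = 0) → False)
    {κ : Fin 3 → ℕ}
    {q : ((Fin r → ZMod 3) × (Fin r → ZMod 3) × (Fin r → ZMod 3)) × (ℤ × ℤ × ℤ)}
    {z p1 p2 q1 q2 : Vt k} (hp : p1 ≠ p2) (hq : q1 ≠ q2)
    (z1 : Sh (HG H κ q) z p1) (z2 : Sh (HG H κ q) z p2)
    (z3 : Sh (HG H κ q) z q1) (z4 : Sh (HG H κ q) z q2)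
    (r1 : Sh (HG H κ q) p1 q1) (r2 : Sh (HG H κ q) p1 q2)
    (r3 : Sh (HG H κ q) p2 q1) (r4 : Sh (HG H κ q) p2 q2) : False := by
  have R11 := rel_of_triangle z1 r1 z3
  have R12 := rel_of_triangle z1 r2 z4
  have R21 := rel_of_triangle z2 r3 z3
  have R22 := rel_of_triangle z2 r4 z4
  obtain ⟨a1, -, hp1, -⟩ := shadow_facts z1
  obtain ⟨a2, -, hp2, -⟩ := shadow_facts z2
  obtain ⟨a3, -, hq1, -⟩ := shadow_facts z3
  obtain ⟨a4, -, hq2, -⟩ := shadow_facts z4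
  obtain ⟨b1, -⟩ := shadow_facts r1
  obtain ⟨b2, -⟩ := shadow_facts r2
  obtain ⟨b3, -⟩ := shadow_facts r3
  obtain ⟨b4, -⟩ := shadow_facts r4
  have hpp : p1.1 = p2.1 := by
    revert a1 a2 a3 a4 b1 b2 b3 b4
    generalize z.1 = u0
    generalize p1.1 = u1
    generalize p2.1 = u2
    generalize q1.1 = u3
    generalize q2.1 = u4
    revert u0 u1 u2 u3 u4
    decide
  have hqq : q1.1 = q2.1 := by
    revert a1 a2 a3 a4 b1 b2 b3 b4
    generalize z.1 = u0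
    generalize p1.1 = u1
    generalize p2.1 = u2
    generalize q1.1 = u3
    generalize q2.1 = u4
    revert u0 u1 u2 u3 u4
    decide
  have hp' : p1.2 ≠ p2.2 := fun h => hp (Prod.ext hpp h)
  have hq' : q1.2 ≠ q2.2 := fun h => hq (Prod.ext hqq h)
  -- difference vectors
  refine hH (fun t => lv p1.2 t - lv p2.2 t) (fun t => lv q1.2 t - lv q2.2 t) ?_ ?_ ?_ ?_ ?_
  · obtain ⟨g, hg⟩ := Function.ne_iff.mp hp'
    obtain ⟨i, hi⟩ := Function.ne_iff.mp hg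
    intro h0
    have h1 := congrFun h0 (g, i)
    simp only [Pi.zero_apply, lv] at h1
    exact lam_ne (R11 g i).swap (R21 g i).swap hi (sub_eq_zero.mp h1)
  · obtain ⟨g, hg⟩ := Function.ne_iff.mp hq'
    obtain ⟨i, hi⟩ := Function.ne_iff.mp hg
    intro h0
    have h1 := congrFun h0 (g, i)
    simp only [Pi.zero_apply, lv] at h1
    exact lam_ne (R11 g i).rot.rot (R12 g i).rot.rot hi (sub_eq_zero.mp h1)
  · intro t
    rcases sidon (R11 t.1 t.2) (R12 t.1 t.2) (R21 t.1 t.2) (R22 t.1 t.2) with h | h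
    · left; simp only [lv]; rw [h]; ring
    · right; simp only [lv]; rw [h]; ring
  · intro j
    have h1 : Phi H p1.2 j = Phi H p2.2 j := by rw [hp1, hp2, hpp]
    unfold Phi at h1
    simp only [mul_sub, Finset.sum_sub_distrib]
    rw [h1]; ring
  · intro j
    have h1 : Phi H q1.2 j = Phi H q2.2 j := by rw [hq1, hq2, hqq]
    unfold Phi at h1
    simp only [mul_sub, Finset.sum_sub_distrib]
    rw [h1]; ring

end Pool.Agent.Helper54.W4
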