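import Mathlib
import Pool.Agent.Helper54.W4.Code
import Pool.Agent.Helper54.W4.Free

set_option autoImplicit false

namespace Pool.Agent.Helper54.W4

open Finset

attribute [local irreducible] Pt RS

/-- `G` contains the wheel with four spokes (hub `z`, rim `p₁ q₁ p₂ q₂`). -/
def ContainsWheelFour {m : ℕ} (G : SimpleGraph (Fin m)) : Prop :=
  ∃ z p₁ q₁ p₂ q₂ : Fin m, p₁ ≠ p₂ ∧ q₁ ≠ q₂ ∧
    G.Adj z p₁ ∧ G.Adj z q₁ ∧ G.Adj z p₂ ∧ G.Adj z q₂ ∧
    G.Adj p₁ q₁ ∧ G.Adj q₁ p₂ ∧ G.Adj p₂ q₂ ∧ G.Adj q₂ p₁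

/-- the family `H` of subsets contains a copy of the expansion of `G` -/
def HasExpansion {n m : ℕ} (H : Finset (Finset (Fin n))) (G : SimpleGraph (Fin m)) : Prop :=
  ∃ f : Fin m → Fin n, ∃ g : Sym2 (Fin m) → Fin n,
    Function.Injective f ∧ Set.InjOn g G.edgeSet ∧
    (∀ e ∈ G.edgeSet, ∀ v : Fin m, g e ≠ f v) ∧
    ∀ u v : Fin m, G.Adj u v → ({f u, f v, g s(u, v)} : Finset (Fin n)) ∈ H

theorem transfer {α : Type} [DecidableEq α] (U : Finset α) (HH : Finset (Finset α))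
    (hU : ∀ e ∈ HH, e ⊆ U) :
    ∃ (ψ : Fin U.card ↪ α) (H' : Finset (Finset (Fin U.card))),
      (∀ s ∈ H', s.map ψ ∈ HH) ∧ H'.card = HH.card := by
  classical
  let ψ : Fin U.card ↪ α := (U.equivFin.symm.toEmbedding).trans (Function.Embedding.subtype _)
  have hψ : ∀ a ∈ U, ∃ i, ψ i = a := by
    intro a ha
    refine ⟨U.equivFin ⟨a, ha⟩, ?_⟩
    simp [ψ]
  refine ⟨ψ, univ.filter (fun s => s.map ψ ∈ HH), ?_, ?_⟩
  · intro s hs
    exact (Finset.mem_filter.mp hs).2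
  · refine Finset.card_bij (fun s _ => s.map ψ) ?_ ?_ ?_
    · intro s hs
      exact (Finset.mem_filter.mp hs).2
    · intro s _ t _ h
      exact Finset.map_injective ψ h
    · intro e he
      refine ⟨univ.filter (fun i => ψ i ∈ e), ?_, ?_⟩
      · rw [Finset.mem_filter]
        refine ⟨Finset.mem_univ _, ?_⟩
        have : (univ.filter (fun i => ψ i ∈ e)).map ψ = e := by
          ext a
          rw [Finset.mem_map]
          constructor
          · rintro ⟨i, hi, rfl⟩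
            exact (Finset.mem_filter.mp hi).2
          · intro ha
            obtain ⟨i, rfl⟩ := hψ a (hU e he ha)
            exact ⟨i, Finset.mem_filter.mpr ⟨Finset.mem_univ _, ha⟩, rfl⟩
        rw [this]; exact he
      · ext a
        rw [Finset.mem_map]
        constructor
        · rintro ⟨i, hi, rfl⟩
          exact (Finset.mem_filter.mp hi).2
        · intro ha
          obtain ⟨i, rfl⟩ := hψ a (hU e he ha)
          exact ⟨i, Finset.mem_filter.mpr ⟨Finset.mem_univ _, ha⟩, rfl⟩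

theorem exists_r (N : ℕ) : ∃ r : ℕ, 5 ^ N < 9 ^ r ∧ 9 ^ r ≤ 9 * 5 ^ N := by
  have hex : ∃ r : ℕ, 5 ^ N < 9 ^ r :=
    ⟨N + 1, by
      calc 5 ^ N ≤ 9 ^ N := Nat.pow_le_pow_left (by norm_num) N
        _ < 9 ^ (N + 1) := Nat.pow_lt_pow_right (by norm_num) (Nat.lt_succ_self N)⟩
  classical
  refine ⟨Nat.find hex, Nat.find_spec hex, ?_⟩
  rcases h : Nat.find hex with _ | r
  · have h0 := Nat.find_spec hex
    rw [h] at h0
    have : 1 ≤ 5 ^ N := Nat.one_le_pow _ _ (by norm_num)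
    omega
  · have h1 : ¬ 5 ^ N < 9 ^ r := Nat.find_min hex (by rw [h]; exact Nat.lt_succ_self r)
    rw [pow_succ]
    have := Nat.le_of_not_lt h1
    omega

theorem algebra_step (k : ℕ) (T0 T S n g L I κ : ℝ) (hκ : 0 ≤ κ) (Z V F : ℝ)
    (hT0 : 0 ≤ T0) (hS : 0 ≤ S) (hn : 0 ≤ n) (hg : 0 < g) (hL : 0 ≤ L)
    (hZ : 0 ≤ Z) (hV : 0 ≤ V)
    (h1 : Z ^ k ≤ L ^ 3 * (T0 * κ ^ 2)) (h2 : S * κ ^ 3 ≤ V ^ (3 * k))
    (h3 : T0 ^ 3 ≤ T * (g ^ 3 * I ^ 3)) (h4 : g * n ≤ 3 * S) (h5 : g ^ 2 ≤ 9 * F) :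
    n ^ 4 * (Z ^ 2) ^ (3 * k) ≤ 729 * L ^ 18 * I ^ 6 * (V ^ 4) ^ (3 * k) * F * T ^ 2 := by
  have a1 : Z ^ (3 * k) ≤ L ^ 9 * (T0 ^ 3 * κ ^ 6) := by
    have := pow_le_pow_left₀ (pow_nonneg hZ k) h1 3
    calc Z ^ (3 * k) = (Z ^ k) ^ 3 := by rw [← pow_mul, mul_comm]
      _ ≤ (L ^ 3 * (T0 * κ ^ 2)) ^ 3 := this
      _ = L ^ 9 * (T0 ^ 3 * κ ^ 6) := by ring
  have a2 : (S * κ ^ 3) ^ 2 ≤ V ^ (6 * k) := by
    have := pow_le_pow_left₀ (by positivity) h2 2
    calc (S * κ ^ 3) ^ 2 ≤ (V ^ (3 * k)) ^ 2 := this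
      _ = V ^ (6 * k) := by rw [← pow_mul]; congr 1; ring
  have a3 : (g * n) ^ 2 ≤ 9 * S ^ 2 := by
    have := pow_le_pow_left₀ (by positivity) h4 2
    calc (g * n) ^ 2 ≤ (3 * S) ^ 2 := this
      _ = 9 * S ^ 2 := by ring
  have a4 : Z ^ (3 * k) * (g * n) ^ 2 ≤ 9 * L ^ 9 * V ^ (6 * k) * (T * (g ^ 3 * I ^ 3)) := by
    calc Z ^ (3 * k) * (g * n) ^ 2
        ≤ (L ^ 9 * (T0 ^ 3 * κ ^ 6)) * (9 * S ^ 2) :=
          mul_le_mul a1 a3 (by positivity) (by positivity)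
      _ = 9 * L ^ 9 * T0 ^ 3 * (S * κ ^ 3) ^ 2 := by ring
      _ ≤ 9 * L ^ 9 * T0 ^ 3 * V ^ (6 * k) := mul_le_mul_of_nonneg_left a2 (by positivity)
      _ = 9 * L ^ 9 * V ^ (6 * k) * T0 ^ 3 := by ring
      _ ≤ 9 * L ^ 9 * V ^ (6 * k) * (T * (g ^ 3 * I ^ 3)) :=
          mul_le_mul_of_nonneg_left h3 (by positivity)
  have a5 : Z ^ (3 * k) * n ^ 2 ≤ 9 * L ^ 9 * V ^ (6 * k) * (T * (g * I ^ 3)) := by
    have hg2 : 0 < g ^ 2 := by positivity
    refine le_of_mul_le_mul_right ?_ hg2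
    calc Z ^ (3 * k) * n ^ 2 * g ^ 2 = Z ^ (3 * k) * (g * n) ^ 2 := by ring
      _ ≤ _ := a4
      _ = 9 * L ^ 9 * V ^ (6 * k) * (T * (g * I ^ 3)) * g ^ 2 := by ring
  have a6 := pow_le_pow_left₀ (by positivity) a5 2
  calc n ^ 4 * (Z ^ 2) ^ (3 * k) = (Z ^ (3 * k) * n ^ 2) ^ 2 := by
        rw [← pow_mul]; ring
    _ ≤ (9 * L ^ 9 * V ^ (6 * k) * (T * (g * I ^ 3))) ^ 2 := a6
    _ = 81 * L ^ 18 * I ^ 6 * V ^ (12 * k) * T ^ 2 * g ^ 2 := by
        rw [show 12 * k = 6 * k + 6 * k by ring, pow_add]; ring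
    _ ≤ 81 * L ^ 18 * I ^ 6 * V ^ (12 * k) * T ^ 2 * (9 * F) :=
        mul_le_mul_of_nonneg_left h5 (by positivity)
    _ = 729 * L ^ 18 * I ^ 6 * (V ^ 4) ^ (3 * k) * F * T ^ 2 := by
        rw [← pow_mul, show 4 * (3 * k) = 12 * k by ring]; ring

theorem key_ineq' : 5 * VV ^ 4 < ZZ ^ 2 := by
  have h := key_ineq
  unfold VV ZZ
  calc 5 * (vv ^ 2) ^ 4 = 5 * vv ^ 8 := by ring
    _ < _ := h

theorem ZZ_pos : 0 < ZZ := by
  have h := key_ineq'
  have hV : 0 < VV ^ 4 := pow_pos VV_pos 4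
  rcases ZZ_nonneg.lt_or_eq with h1 | h1
  · exact h1
  · rw [← h1] at h
    norm_num at h
    linarith

theorem construction (k : ℕ) : ∃ (n : ℕ) (H : Finset (Finset (Fin n))),
    (∀ e ∈ H, e.card = 3) ∧
    (∀ (m : ℕ) (G : SimpleGraph (Fin m)), ContainsWheelFour G → ¬ HasExpansion H G) ∧
    n ≤ 3 * (5625 ^ k) ^ 3 ∧ 0 < H.card ∧
    (n : ℝ) ^ 4 * (ZZ ^ 2) ^ (3 * k) ≤ 729 * (288 * k + 1 : ℝ) ^ 18 *
      (1200000 * k + 1 : ℝ) ^ 6 * (VV ^ 4) ^ (3 * k) * 5 ^ (3 * k) * (H.card : ℝ) ^ 2 := by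
  classical
  obtain ⟨r, hr1, hr2⟩ := exists_r (3 * k)
  have hcardI : Fintype.card (Ix k) = 3 * k := by simp [Ix]
  obtain ⟨M, hM⟩ := exists_hash (ι := Ix k) r (by rw [hcardI]; exact hr1)
  obtain ⟨a, b, c, habc⟩ := exists_class k
  set κ : Fin 3 → ℕ := ![a, b, c] with hκ
  obtain ⟨q, hq1, hq2, hq3, hq4⟩ := exists_cls M κ
  set A := fib M κ q.1.1 with hA
  set B := fib M (fun g => κ (g + 1)) q.1.2.1 with hB
  set C := fib M (fun g => κ (g + 2)) q.1.2.2 with hC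
  set U : Finset (Vt k) := (({0} : Finset (Fin 3)) ×ˢ A) ∪
    ((({1} : Finset (Fin 3)) ×ˢ B) ∪ (({2} : Finset (Fin 3)) ×ˢ C)) with hUdef
  have hsub : ∀ e ∈ HG M κ q, e ⊆ U := by
    intro e he
    unfold HG at he
    rw [Finset.mem_image] at he
    obtain ⟨s, hs, rfl⟩ := he
    unfold cls TF at hs
    rw [Finset.mem_filter, Finset.mem_filter, Finset.mem_product, Finset.mem_product] at hs
    obtain ⟨⟨⟨hs1, hs2, hs3⟩, -⟩, hsq⟩ := hs
    have hsq1 : Phi M s.1 = q.1.1 := by rw [← hsq]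
    have hsq2 : Phi M s.2.1 = q.1.2.1 := by rw [← hsq]
    have hsq3 : Phi M s.2.2 = q.1.2.2 := by rw [← hsq]
    intro x hx
    unfold edg at hx
    rw [Finset.mem_insert, Finset.mem_insert, Finset.mem_singleton] at hx
    rw [hUdef, Finset.mem_union, Finset.mem_union, Finset.mem_product, Finset.mem_product,
      Finset.mem_product]
    rcases hx with rfl | rfl | rfl
    · left
      exact ⟨Finset.mem_singleton_self _, Finset.mem_filter.mpr ⟨hs1, hsq1⟩⟩
    · right; left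
      exact ⟨Finset.mem_singleton_self _, Finset.mem_filter.mpr ⟨hs2, hsq2⟩⟩
    · right; right
      exact ⟨Finset.mem_singleton_self _, Finset.mem_filter.mpr ⟨hs3, hsq3⟩⟩
  obtain ⟨ψ, H, hH1, hH2⟩ := transfer U (HG M κ q) hsub
  have hadj : ∀ {m : ℕ} (G : SimpleGraph (Fin m)) (f : Fin m → Fin U.card)
      (g : Sym2 (Fin m) → Fin U.card), Function.Injective f →
      (∀ u v : Fin m, G.Adj u v → ({f u, f v, g s(u, v)} : Finset (Fin U.card)) ∈ H) →
      ∀ u v, G.Adj u v → Sh (HG M κ q) (ψ (f u)) (ψ (f v)) := by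
    intro m G f g hf hfg u v huv
    refine ⟨fun h => huv.ne (hf (ψ.injective h)), _, hH1 _ (hfg u v huv), ?_, ?_⟩
    · rw [Finset.mem_map]; exact ⟨f u, by simp, rfl⟩
    · rw [Finset.mem_map]; exact ⟨f v, by simp, rfl⟩
  refine ⟨U.card, H, ?_, ?_, ?_, ?_⟩
  · intro e he
    have := hH1 e he
    unfold HG at this
    rw [Finset.mem_image] at this
    obtain ⟨s, -, hs⟩ := this
    have h3 := card_edg s
    rw [hs, Finset.card_map] at h3
    exact h3
  · rintro m G ⟨z, p1, q1, p2, q2, hp, hq, e1, e2, e3, e4, e5, e6, e7, e8⟩ ⟨f, g, hf, -, -, hfg⟩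
    have had := hadj G f g hf hfg
    exact no_wheel hM (z := ψ (f z)) (p1 := ψ (f p1)) (p2 := ψ (f p2)) (q1 := ψ (f q1))
      (q2 := ψ (f q2)) (fun h => hp (hf (ψ.injective h))) (fun h => hq (hf (ψ.injective h)))
      (had _ _ e1) (had _ _ e3) (had _ _ e2) (had _ _ e4) (had _ _ e5) (had _ _ e8).symm
      (had _ _ e6).symm (had _ _ e7)
  · have h1 : U.card ≤ (univ : Finset (Vt k)).card := Finset.card_le_card (Finset.subset_univ _)
    refine h1.trans (le_of_eq ?_)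
    rw [Finset.card_univ]
    simp [Vt, FV, GV, Blk, Ltr]
  · have hg0 : 0 < (Im M).card := Finset.card_pos.mpr ⟨_, hq1⟩
    have hg2 : ((Im M).card : ℝ) ^ 2 ≤ 9 * 5 ^ (3 * k) := by
      have h1 : (Im M).card ≤ 3 ^ r := by
        have := Finset.card_le_card (Finset.subset_univ (Im M))
        rw [Finset.card_univ, Fintype.card_fun, ZMod.card, Fintype.card_fin] at this
        exact this
      have h2 : (Im M).card ^ 2 ≤ 9 * 5 ^ (3 * k) := by
        calc (Im M).card ^ 2 ≤ (3 ^ r) ^ 2 := Nat.pow_le_pow_left h1 2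
          _ = 9 ^ r := by rw [← pow_mul, mul_comm, pow_mul]; norm_num
          _ ≤ _ := hr2
      exact_mod_cast h2
    have hgn : ((Im M).card : ℝ) * (U.card : ℝ) ≤ 3 * ((AS k κ).card : ℝ) := by
      have hUc : U.card ≤ A.card + (B.card + C.card) := by
        rw [hUdef]
        refine (Finset.card_union_le _ _).trans ?_
        refine Nat.add_le_add ?_ ((Finset.card_union_le _ _).trans (Nat.add_le_add ?_ ?_))
        · rw [Finset.card_product]; simp
        · rw [Finset.card_product]; simp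
        · rw [Finset.card_product]; simp
      have hA' := fib_card M κ hq1
      have hB' := fib_card M (fun g => κ (g + 1)) hq2
      have hC' := fib_card M (fun g => κ (g + 2)) hq3
      rw [card_AS_rot] at hB' hC'
      have : (Im M).card * U.card ≤ 3 * (AS k κ).card := by
        calc (Im M).card * U.card ≤ (Im M).card * (A.card + (B.card + C.card)) :=
              Nat.mul_le_mul_left _ hUc
          _ = 3 * (AS k κ).card := by
              rw [mul_add, mul_add, hA', hB', hC']; ring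
      exact_mod_cast this
    have hrp := rho_pos
    have h2 : ((AS k κ).card : ℝ) * (rho ^ (a + b + c)) ^ 3 ≤ VV ^ (3 * k) := by
      rw [card_AS, hκ]
      simp only [Matrix.cons_val_zero, Matrix.cons_val_one, Matrix.cons_val]
      push_cast
      have ea := card_Sk k a
      have eb := card_Sk k b
      have ec := card_Sk k c
      have hV : 0 ≤ VV ^ k := pow_nonneg VV_pos.le k
      calc ((Sk k a).card : ℝ) * (Sk k b).card * (Sk k c).card * (rho ^ (a + b + c)) ^ 3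
          = (((Sk k a).card : ℝ) * rho ^ (3 * a)) * (((Sk k b).card : ℝ) * rho ^ (3 * b))
            * (((Sk k c).card : ℝ) * rho ^ (3 * c)) := by
            rw [← pow_mul, show (a + b + c) * 3 = 3 * a + 3 * b + 3 * c by ring, pow_add, pow_add]
            ring
        _ ≤ VV ^ k * VV ^ k * VV ^ k := by
            have p1 : 0 ≤ ((Sk k a).card : ℝ) * rho ^ (3 * a) := by positivity
            have p2 : 0 ≤ ((Sk k b).card : ℝ) * rho ^ (3 * b) := by positivity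
            have p3 : 0 ≤ ((Sk k c).card : ℝ) * rho ^ (3 * c) := by positivity
            exact mul_le_mul (mul_le_mul ea eb p2 hV) ec p3 (mul_nonneg hV hV)
        _ = VV ^ (3 * k) := by
            rw [show 3 * k = k + k + k by ring, pow_add, pow_add]
    have h3 : ((TC k a b c).card : ℝ) ^ 3
        ≤ (H.card : ℝ) * (((Im M).card : ℝ) ^ 3 * (1200000 * k + 1 : ℝ) ^ 3) := by
      have e1 := card_TF k a b c
      have e2 := e1.trans hq4
      rw [← card_HG, ← hH2] at e2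
      exact_mod_cast e2
    have h1 : ZZ ^ k ≤ (288 * k + 1 : ℝ) ^ 3 * ((TC k a b c).card * (rho ^ (a + b + c)) ^ 2) := by
      rw [← pow_mul, mul_comm (a + b + c) 2]
      exact habc
    have hfin := algebra_step k (TC k a b c).card H.card (AS k κ).card U.card (Im M).card
      (288 * k + 1) (1200000 * k + 1) (rho ^ (a + b + c)) (by positivity) ZZ VV (5 ^ (3 * k))
      (by positivity) (by positivity) (by positivity)
      (by exact_mod_cast hg0) (by positivity) ZZ_nonneg VV_pos.le h1 h2 h3 hgn hg2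
    refine ⟨?_, hfin⟩
    by_contra hz
    have hz0 : H.card = 0 := by omega
    rw [hz0] at h3
    have hT0 : ((TC k a b c).card : ℝ) = 0 := by
      have h30 : ((TC k a b c).card : ℝ) ^ 3 ≤ 0 := by simpa using h3
      exact pow_eq_zero_iff (three_ne_zero) |>.mp (le_antisymm h30 (by positivity))
    rw [hT0] at h1
    have : (0 : ℝ) < ZZ ^ k := pow_pos ZZ_pos k
    simp at h1
    linarith

end Pool.Agent.Helper54.W4
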